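import Pool.Agent.Helper95.PW.Stmts

/-!
# Row HA2: the Hardy inequality in the relative variable
-/

set_option autoImplicit false

namespace Pool.Agent.Helper95.PW

open MeasureTheory Filter

namespace HA2

variable {n : ℕ} (k : Fin n) (L : Fin 3 → (Cf n →L[ℝ] ℝ))

/-- square of the length of `L x` -/
noncomputable def S (x : Cf n) : ℝ := L 0 x ^ 2 + L 1 x ^ 2 + L 2 x ^ 2

theorem S_nonneg (x : Cf n) : 0 ≤ S L x := by unfold S; positivity

theorem S_cont : Continuous (S L) := by unfold S; fun_prop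

theorem le_S (x : Cf n) (i : Fin 3) : L i x ^ 2 ≤ S L x := by
  unfold S
  fin_cases i <;> simp <;> nlinarith [sq_nonneg (L 0 x), sq_nonneg (L 1 x), sq_nonneg (L 2 x)]

/-- the unit vector -/
noncomputable def ee (i : Fin 3) : Cf n := Pi.single k (Pi.single i 1)

theorem S_line (hL : ∀ i j, L j (ee k i) = if i = j then 1 else 0) (x : Cf n) (i : Fin 3) (t : ℝ) :
    S L (x + t • ee k i) = S L x + 2 * t * L i x + t ^ 2 := by
  have h : ∀ j, L j (x + t • ee k i) = L j x + t * if i = j then 1 else 0 := by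
    intro j
    rw [map_add, map_smul, hL, smul_eq_mul]
  unfold S
  rw [h 0, h 1, h 2]
  fin_cases i <;> simp <;> ring

theorem F_line (hL : ∀ i j, L j (ee k i) = if i = j then 1 else 0) (e : ℝ) (he : 0 < e)
    (x : Cf n) (i : Fin 3) :
    HasLineDerivAt ℝ (fun x => L i x * (S L x + e)⁻¹)
      ((S L x + e)⁻¹ - 2 * L i x ^ 2 * ((S L x + e)⁻¹) ^ 2) x (ee k i) := by
  unfold HasLineDerivAt
  have h1 : (fun t : ℝ => L i (x + t • ee k i) * (S L (x + t • ee k i) + e)⁻¹) =
      fun t => (L i x + t) * ((S L x + 2 * t * L i x + t ^ 2) + e)⁻¹ := by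
    funext t
    rw [S_line k L hL, map_add, map_smul, hL, if_pos rfl, smul_eq_mul, mul_one]
  rw [h1]
  have hne : S L x + 2 * 0 * L i x + (0 : ℝ) ^ 2 + e ≠ 0 := by
    have := S_nonneg L x
    have h : 0 < S L x + e := by linarith
    simp only [mul_zero, zero_mul, add_zero, ne_eq, OfNat.ofNat_ne_zero, not_false_eq_true,
      zero_pow]
    exact h.ne'
  have h2 : HasDerivAt (fun t : ℝ => L i x + t) 1 0 := (hasDerivAt_id 0).const_add _
  have h3 : HasDerivAt (fun t : ℝ => S L x + 2 * t * L i x + t ^ 2 + e)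
      (2 * 1 * L i x + 2 * (0 : ℝ) ^ 1 * 1) 0 := by
    have h4 : HasDerivAt (fun t : ℝ => 2 * t * L i x) (2 * 1 * L i x) 0 :=
      ((hasDerivAt_id (0 : ℝ)).const_mul 2).mul_const _
    have h5 : HasDerivAt (fun t : ℝ => t ^ 2) (2 * (0 : ℝ) ^ 1 * 1) 0 := by
      simpa using hasDerivAt_pow 2 (0 : ℝ)
    exact ((h4.const_add _).add h5).add_const e
  have h6 := h2.mul (h3.inv hne)
  refine h6.congr_deriv ?_
  simp only [mul_zero, zero_mul, add_zero, ne_eq, OfNat.ofNat_ne_zero, not_false_eq_true,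
    zero_pow, mul_one, pow_one, one_mul, inv_pow, Pi.inv_apply]
  ring

theorem hardy_eps (hL : ∀ i j, L j (ee k i) = if i = j then 1 else 0) (v : Cf n → ℝ)
    (hv : ContDiff ℝ (⊤ : ℕ∞) v) (hc : HasCompactSupport v) (e : ℝ) (he : 0 < e) :
    Integrable (fun x => v x ^ 2 * (S L x + e)⁻¹) ∧
    ∫ x, v x ^ 2 * (S L x + e)⁻¹ ≤ 4 * ∫ x, ∑ i, dv k i v x ^ 2 := by
  have hSpos : ∀ x, 0 < S L x + e := fun x => by have := S_nonneg L x; linarith
  have hSc : Continuous fun x => (S L x + e)⁻¹ :=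
    ((S_cont L).add continuous_const).inv₀ fun x => (hSpos x).ne'
  have hvc : Continuous v := hv.continuous
  have hv2 : HasCompactSupport fun x => v x ^ 2 := by
    have : (fun x => v x ^ 2) = fun x => v x * v x := by funext x; ring
    rw [this]
    exact hc.mul_right
  have hdc : ∀ i, Continuous (dv k i v) := fun i =>
    (hv.continuous_fderiv (by simp)).clm_apply continuous_const
  have hds : ∀ i, HasCompactSupport (dv k i v) := fun i => hc.fderiv_apply ℝ _
  have I1 : Integrable (fun x => v x ^ 2 * (S L x + e)⁻¹) :=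
    ((hvc.pow 2).mul hSc).integrable_of_hasCompactSupport hv2.mul_right
  have hvl : ∀ i x, HasLineDerivAt ℝ (fun x => v x ^ 2) (2 * v x * dv k i v x) x (ee k i) := by
    intro i x
    have h1 : HasLineDerivAt ℝ v (dv k i v x) x (ee k i) :=
      ((hv.differentiable (by simp)) x).hasFDerivAt.hasLineDerivAt _
    unfold HasLineDerivAt at h1 ⊢
    have h2 := h1.pow 2
    refine h2.congr_deriv ?_
    simp
  have hFc : ∀ i, Continuous fun x => L i x * (S L x + e)⁻¹ := fun i => (L i).continuous.mul hSc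
  have hD : ∀ i, Continuous fun x =>
      (S L x + e)⁻¹ - 2 * L i x ^ 2 * ((S L x + e)⁻¹) ^ 2 := fun i =>
    hSc.sub ((continuous_const.mul ((L i).continuous.pow 2)).mul (hSc.pow 2))
  have J1 : ∀ i, Integrable (fun x => (2 * v x * dv k i v x) * (L i x * (S L x + e)⁻¹)) := by
    intro i
    have hcs : HasCompactSupport fun x => 2 * v x * dv k i v x := (hds i).mul_left
    exact (((continuous_const.mul hvc).mul (hdc i)).mul (hFc i)).integrable_of_hasCompactSupport
      hcs.mul_right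
  have J2 : ∀ i, Integrable (fun x => v x ^ 2 *
      ((S L x + e)⁻¹ - 2 * L i x ^ 2 * ((S L x + e)⁻¹) ^ 2)) := fun i =>
    ((hvc.pow 2).mul (hD i)).integrable_of_hasCompactSupport hv2.mul_right
  have J3 : ∀ i, Integrable (fun x => v x ^ 2 * (L i x * (S L x + e)⁻¹)) := fun i =>
    ((hvc.pow 2).mul (hFc i)).integrable_of_hasCompactSupport hv2.mul_right
  have J4 : ∀ i, Integrable (fun x => dv k i v x ^ 2) := by
    intro i
    have hcs : HasCompactSupport fun x => dv k i v x ^ 2 := by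
      have : (fun x => dv k i v x ^ 2) = fun x => dv k i v x * dv k i v x := by funext x; ring
      rw [this]
      exact (hds i).mul_right
    exact ((hdc i).pow 2).integrable_of_hasCompactSupport hcs
  have ibp : ∀ i, ∫ x, v x ^ 2 * ((S L x + e)⁻¹ - 2 * L i x ^ 2 * ((S L x + e)⁻¹) ^ 2) =
      -∫ x, (2 * v x * dv k i v x) * (L i x * (S L x + e)⁻¹) := by
    intro i
    exact integral_bilinear_hasLineDerivAt_right_eq_neg_left_of_integrable
      (μ := volume) (f := fun x => v x ^ 2) (f' := fun x => 2 * v x * dv k i v x)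
      (g := fun x => L i x * (S L x + e)⁻¹)
      (g' := fun x => (S L x + e)⁻¹ - 2 * L i x ^ 2 * ((S L x + e)⁻¹) ^ 2)
      (v := ee k i) (B := ContinuousLinearMap.mul ℝ ℝ) (J1 i) (J2 i) (J3 i)
      (fun x _ => hvl i x) (fun x _ => F_line k L hL e he x i)
  refine ⟨I1, ?_⟩
  set A : ℝ := ∫ x, v x ^ 2 * (S L x + e)⁻¹ with hA
  set J : ℝ := ∫ x, ∑ i, dv k i v x ^ 2 with hJ
  have I4 : Integrable (fun x => ∑ i, dv k i v x ^ 2) := integrable_finsetSum _ fun i _ => J4 i
  have I2 : Integrable (fun x => ∑ i, v x ^ 2 *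
      ((S L x + e)⁻¹ - 2 * L i x ^ 2 * ((S L x + e)⁻¹) ^ 2)) := integrable_finsetSum _ fun i _ => J2 i
  have J1n : ∀ i, Integrable (fun x => -((2 * v x * dv k i v x) * (L i x * (S L x + e)⁻¹))) :=
    fun i => (J1 i).neg
  have I3 : Integrable (fun x => ∑ i, -((2 * v x * dv k i v x) * (L i x * (S L x + e)⁻¹))) :=
    integrable_finsetSum _ fun i _ => J1n i
  have h1 : A ≤ ∫ x, ∑ i, v x ^ 2 *
      ((S L x + e)⁻¹ - 2 * L i x ^ 2 * ((S L x + e)⁻¹) ^ 2) := by
    rw [hA]
    refine integral_mono I1 I2 fun x => ?_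
    change v x ^ 2 * (S L x + e)⁻¹ ≤ ∑ i, v x ^ 2 *
      ((S L x + e)⁻¹ - 2 * L i x ^ 2 * ((S L x + e)⁻¹) ^ 2)
    rw [← Finset.mul_sum, Fin.sum_univ_three]
    refine mul_le_mul_of_nonneg_left ?_ (sq_nonneg _)
    have hh : 0 < (S L x + e)⁻¹ := inv_pos.2 (hSpos x)
    have hSh : S L x * (S L x + e)⁻¹ ≤ 1 := by
      rw [← div_eq_mul_inv, div_le_one (hSpos x)]
      linarith
    have e1 : (S L x + e)⁻¹ - 2 * L 0 x ^ 2 * ((S L x + e)⁻¹) ^ 2 +
        ((S L x + e)⁻¹ - 2 * L 1 x ^ 2 * ((S L x + e)⁻¹) ^ 2) +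
        ((S L x + e)⁻¹ - 2 * L 2 x ^ 2 * ((S L x + e)⁻¹) ^ 2) =
        3 * (S L x + e)⁻¹ - 2 * (S L x * (S L x + e)⁻¹) * (S L x + e)⁻¹ := by
      unfold S
      ring
    rw [e1]
    nlinarith
  have h2 : ∫ x, ∑ i, v x ^ 2 *
      ((S L x + e)⁻¹ - 2 * L i x ^ 2 * ((S L x + e)⁻¹) ^ 2) =
      ∫ x, ∑ i, -((2 * v x * dv k i v x) * (L i x * (S L x + e)⁻¹)) := by
    rw [integral_finsetSum _ fun i _ => J2 i, integral_finsetSum _ fun i _ => J1n i]
    refine Finset.sum_congr rfl fun i _ => ?_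
    rw [ibp i, integral_neg]
  have h3 : ∫ x, ∑ i, -((2 * v x * dv k i v x) * (L i x * (S L x + e)⁻¹)) ≤
      ∫ x, (1 / 2 * (v x ^ 2 * (S L x + e)⁻¹) + 2 * ∑ i, dv k i v x ^ 2) := by
    refine integral_mono I3 ((I1.const_mul _).add (I4.const_mul _)) fun x => ?_
    change ∑ i, -((2 * v x * dv k i v x) * (L i x * (S L x + e)⁻¹)) ≤
      1 / 2 * (v x ^ 2 * (S L x + e)⁻¹) + 2 * ∑ i, dv k i v x ^ 2
    have hh : 0 < (S L x + e)⁻¹ := inv_pos.2 (hSpos x)
    have hSh : S L x * (S L x + e)⁻¹ ≤ 1 := by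
      rw [← div_eq_mul_inv, div_le_one (hSpos x)]
      linarith
    have e2 : ∀ i, -((2 * v x * dv k i v x) * (L i x * (S L x + e)⁻¹)) ≤
        1 / 2 * (v x ^ 2 * (L i x ^ 2 * ((S L x + e)⁻¹) ^ 2)) + 2 * dv k i v x ^ 2 := by
      intro i
      nlinarith [sq_nonneg (v x * L i x * (S L x + e)⁻¹ + 2 * dv k i v x)]
    have e3 : v x ^ 2 * (S L x * ((S L x + e)⁻¹) ^ 2) ≤ v x ^ 2 * (S L x + e)⁻¹ := by
      refine mul_le_mul_of_nonneg_left ?_ (sq_nonneg _)
      calc S L x * ((S L x + e)⁻¹) ^ 2 = (S L x * (S L x + e)⁻¹) * (S L x + e)⁻¹ := by ring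
        _ ≤ 1 * (S L x + e)⁻¹ := mul_le_mul_of_nonneg_right hSh hh.le
        _ = (S L x + e)⁻¹ := one_mul _
    calc ∑ i, -((2 * v x * dv k i v x) * (L i x * (S L x + e)⁻¹))
        ≤ ∑ i, (1 / 2 * (v x ^ 2 * (L i x ^ 2 * ((S L x + e)⁻¹) ^ 2)) + 2 * dv k i v x ^ 2) :=
          Finset.sum_le_sum fun i _ => e2 i
      _ = 1 / 2 * (v x ^ 2 * (S L x * ((S L x + e)⁻¹) ^ 2)) + 2 * ∑ i, dv k i v x ^ 2 := by
          rw [Finset.sum_add_distrib, ← Finset.mul_sum, ← Finset.mul_sum, ← Finset.mul_sum,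
            ← Finset.sum_mul]
          congr 4
          unfold S
          rw [Fin.sum_univ_three]
      _ ≤ _ := by linarith
  have h4 : ∫ x, (1 / 2 * (v x ^ 2 * (S L x + e)⁻¹) + 2 * ∑ i, dv k i v x ^ 2) =
      1 / 2 * A + 2 * J := by
    rw [integral_add (I1.const_mul _) (I4.const_mul _), integral_const_mul, integral_const_mul]
  rw [h2] at h1
  rw [h4] at h3
  linarith

theorem hardy (hL : ∀ i j, L j (ee k i) = if i = j then 1 else 0) (v : Cf n → ℝ)
    (hv : ContDiff ℝ (⊤ : ℕ∞) v) (hc : HasCompactSupport v) :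
    Integrable (fun x => v x ^ 2 / S L x) ∧
    ∫ x, v x ^ 2 / S L x ≤ 4 * ∫ x, ∑ i, dv k i v x ^ 2 := by
  set J : ℝ := ∫ x, ∑ i, dv k i v x ^ 2 with hJ
  have hJ0 : 0 ≤ J := integral_nonneg fun x => Finset.sum_nonneg fun i _ => sq_nonneg _
  have hm : Measurable (fun x => v x ^ 2 / S L x) :=
    (hv.continuous.measurable.pow_const 2).div (S_cont L).measurable
  have h0 : ∀ x, 0 ≤ v x ^ 2 / S L x := fun x => div_nonneg (sq_nonneg _) (S_nonneg L x)
  have hep : ∀ N : ℕ, (0 : ℝ) < 1 / ((N : ℝ) + 1) := fun N => by positivity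
  have hb : ∀ N : ℕ, ∫⁻ x, ENNReal.ofReal (v x ^ 2 * (S L x + 1 / ((N : ℝ) + 1))⁻¹) ≤
      ENNReal.ofReal (4 * J) := by
    intro N
    obtain ⟨i1, i2⟩ := hardy_eps k L hL v hv hc _ (hep N)
    rw [← ofReal_integral_eq_lintegral_ofReal i1 (Eventually.of_forall fun x => by
      have h1 := S_nonneg L x
      have h2 := hep N
      change 0 ≤ v x ^ 2 * (S L x + 1 / ((N : ℝ) + 1))⁻¹
      positivity)]
    exact ENNReal.ofReal_le_ofReal i2
  have hfat : ∫⁻ x, ENNReal.ofReal (v x ^ 2 / S L x) ≤ ENNReal.ofReal (4 * J) := by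
    calc ∫⁻ x, ENNReal.ofReal (v x ^ 2 / S L x)
        ≤ ∫⁻ x, liminf (fun N : ℕ =>
            ENNReal.ofReal (v x ^ 2 * (S L x + 1 / ((N : ℝ) + 1))⁻¹)) atTop := by
          refine lintegral_mono fun x => ?_
          by_cases hS : S L x = 0
          · rw [hS, div_zero, ENNReal.ofReal_zero]
            exact zero_le
          · have t1 : Tendsto (fun N : ℕ => v x ^ 2 * (S L x + 1 / ((N : ℝ) + 1))⁻¹) atTop
                (nhds (v x ^ 2 * (S L x + 0)⁻¹)) := by
              refine Tendsto.const_mul _ (Tendsto.inv₀ ?_ (by rwa [add_zero]))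
              exact tendsto_const_nhds.add tendsto_one_div_add_atTop_nhds_zero_nat
            rw [add_zero, ← div_eq_mul_inv] at t1
            have t2 := (ENNReal.continuous_ofReal.tendsto _).comp t1
            exact (t2.liminf_eq).ge
      _ ≤ liminf (fun N : ℕ =>
            ∫⁻ x, ENNReal.ofReal (v x ^ 2 * (S L x + 1 / ((N : ℝ) + 1))⁻¹)) atTop := by
          refine lintegral_liminf_le fun N => ?_
          exact ENNReal.measurable_ofReal.comp ((hv.continuous.measurable.pow_const 2).mul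
            (((S_cont L).measurable.add_const _).inv))
      _ ≤ liminf (fun _ : ℕ => ENNReal.ofReal (4 * J)) atTop :=
          liminf_le_liminf (Eventually.of_forall hb)
      _ = ENNReal.ofReal (4 * J) := liminf_const _
  have hint : Integrable (fun x => v x ^ 2 / S L x) := by
    rw [← lintegral_ofReal_ne_top_iff_integrable hm.aestronglyMeasurable
      (Eventually.of_forall h0)]
    exact (lt_of_le_of_lt hfat ENNReal.ofReal_lt_top).ne
  refine ⟨hint, ?_⟩
  rw [← ofReal_integral_eq_lintegral_ofReal hint (Eventually.of_forall h0)] at hfat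
  exact (ENNReal.ofReal_le_ofReal_iff (by positivity)).1 hfat

theorem nr_sq (y : R3) : nr y ^ 2 = y 0 ^ 2 + y 1 ^ 2 + y 2 ^ 2 := by
  unfold nr
  exact Real.sq_sqrt (by positivity)

end HA2

theorem st_HA2 : ST_HA2 := by
  intro n k l v hkl hv hc
  let L : Fin 3 → (Cf n →L[ℝ] ℝ) := fun j =>
    (ContinuousLinearMap.proj (R := ℝ) (φ := fun _ : Fin 3 => ℝ) j).comp
      (ContinuousLinearMap.proj (R := ℝ) (φ := fun _ : Fin n => R3) k -
        ContinuousLinearMap.proj (R := ℝ) (φ := fun _ : Fin n => R3) l)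
  have hLx : ∀ j x, L j x = x k j - x l j := fun j x => rfl
  have hL : ∀ i j, L j (HA2.ee k i) = if i = j then 1 else 0 := by
    intro i j
    rw [hLx]
    unfold HA2.ee
    rw [Pi.single_eq_same, Pi.single_eq_of_ne (Ne.symm hkl), Pi.zero_apply, sub_zero,
      Pi.single_apply]
    simp only [eq_comm]
  have h := HA2.hardy k L hL v hv hc
  have e : (fun x : Cf n => v x ^ 2 / nr (x k - x l) ^ 2) = fun x => v x ^ 2 / HA2.S L x := by
    funext x
    rw [HA2.nr_sq]
    rfl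
  rw [e]
  exact h

/-- the same for `HA1` -/
theorem ha2_ha1 : ST_HA1 := by
  intro n k v hv hc
  let L : Fin 3 → (Cf n →L[ℝ] ℝ) := fun j =>
    (ContinuousLinearMap.proj (R := ℝ) (φ := fun _ : Fin 3 => ℝ) j).comp
      (ContinuousLinearMap.proj (R := ℝ) (φ := fun _ : Fin n => R3) k)
  have hLx : ∀ j x, L j x = x k j := fun j x => rfl
  have hL : ∀ i j, L j (HA2.ee k i) = if i = j then 1 else 0 := by
    intro i j
    rw [hLx]
    unfold HA2.ee
    rw [Pi.single_eq_same, Pi.single_apply]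
    simp only [eq_comm]
  have h := HA2.hardy k L hL v hv hc
  have e : (fun x : Cf n => v x ^ 2 / nr (x k) ^ 2) = fun x => v x ^ 2 / HA2.S L x := by
    funext x
    rw [HA2.nr_sq]
    rfl
  rw [e]
  exact h

end Pool.Agent.Helper95.PW
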