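import Pool.Agent.Helper95.PW.Stmts
import Pool.Agent.Helper2.PW.STB
import Pool.Agent.Helper2.PW.IBP

/-!
# Antisymmetrisation of the approximations of a ground state (for row APX)
-/

set_option autoImplicit false

namespace Pool.Agent.Helper95.PW

open MeasureTheory Filter

variable {n : ℕ}

/-- permutation of the positions -/
def asyx (π : Equiv.Perm (Fin n)) (x : Cf n) : Cf n := fun i => x (π i)

/-- permutation of the spins -/
def asys (π : Equiv.Perm (Fin n)) (s : Fin n → Fin 2) : Fin n → Fin 2 := fun i => s (π i)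

/-- one term of the antisymmetrisation -/
noncomputable def asyT (π : Equiv.Perm (Fin n)) (w : Wf n) : Wf n :=
  fun s x => ((Equiv.Perm.sign π : ℤ) : ℝ) * w (asys π s) (asyx π x)

/-- mean value over the permutations -/
noncomputable def asyM (F : Equiv.Perm (Fin n) → Wf n) : Wf n :=
  fun s x => ((n.factorial : ℝ))⁻¹ * ∑ π : Equiv.Perm (Fin n), asyT π (F π) s x

/-- antisymmetrisation -/
noncomputable def Asy (w : Wf n) : Wf n := asyM fun _ => w

theorem asy_ss (π : Equiv.Perm (Fin n)) :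
    ((Equiv.Perm.sign π : ℤ) : ℝ) * ((Equiv.Perm.sign π : ℤ) : ℝ) = 1 := by
  rcases Int.units_eq_one_or (Equiv.Perm.sign π) with h | h <;> rw [h] <;> norm_num

/-- the permutation as a homeomorphism -/
def asyH (π : Equiv.Perm (Fin n)) : Cf n ≃ₜ Cf n where
  toFun := asyx π
  invFun := asyx π⁻¹
  left_inv x := by
    funext i
    exact congrArg x (Equiv.apply_symm_apply π i)
  right_inv x := by
    funext i
    exact congrArg x (Equiv.symm_apply_apply π i)
  continuous_toFun := continuous_pi fun i => continuous_apply (π i)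
  continuous_invFun := continuous_pi fun i => continuous_apply (π⁻¹ i)

theorem asyx_mp (π : Equiv.Perm (Fin n)) :
    MeasurePreserving (asyx π) (volume : Measure (Cf n)) volume := by
  have h := volume_measurePreserving_piCongrLeft (fun _ : Fin n => R3) π.symm
  have e : asyx π = MeasurableEquiv.piCongrLeft (fun _ : Fin n => R3) π.symm := by
    funext x i
    have := MeasurableEquiv.piCongrLeft_apply_apply (β := fun _ : Fin n => R3) π.symm x (π i)
    rw [Equiv.symm_apply_apply] at this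
    exact this.symm
  rw [e]
  exact h

theorem asyx_int (π : Equiv.Perm (Fin n)) (f : Cf n → ℝ) :
    ∫ x, f (asyx π x) = ∫ x, f x :=
  (asyx_mp π).integral_comp (asyH π).measurableEmbedding f

theorem asyT_sq (π : Equiv.Perm (Fin n)) (w : Wf n) : sq (asyT π w) = sq w := by
  unfold sq asyT
  have h : ∀ s, ∫ x, (((Equiv.Perm.sign π : ℤ) : ℝ) * w (asys π s) (asyx π x)) ^ 2 =
      ∫ x, w (asys π s) x ^ 2 := by
    intro s
    rw [← asyx_int π fun x => w (asys π s) x ^ 2]
    congr 1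
    funext x
    rw [mul_pow, pow_two ((Equiv.Perm.sign π : ℤ) : ℝ), asy_ss, one_mul]
  rw [Finset.sum_congr rfl fun s _ => h s]
  exact Equiv.sum_comp (Equiv.arrowCongr π.symm (Equiv.refl (Fin 2))) fun s => ∫ x, w s x ^ 2

theorem asyT_mem (π : Equiv.Perm (Fin n)) (w : Wf n) (hw : ∀ s, MemLp (w s) 2) (s) :
    MemLp (asyT π w s) 2 :=
  ((hw (asys π s)).comp_measurePreserving (asyx_mp π)).const_mul _

theorem asyM_sq (F : Equiv.Perm (Fin n) → Wf n) (hF : ∀ π s, MemLp (F π s) 2) :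
    sq (asyM F) ≤ ((n.factorial : ℝ))⁻¹ * ∑ π, sq (F π) := by
  have hN : (0 : ℝ) < n.factorial := by exact_mod_cast n.factorial_pos
  have hc : ((Finset.univ : Finset (Equiv.Perm (Fin n))).card : ℝ) = n.factorial := by
    rw [Finset.card_univ, Fintype.card_perm, Fintype.card_fin]
  have hmem := fun π s => asyT_mem π (F π) (hF π) s
  rw [Finset.sum_congr rfl fun π _ => (asyT_sq π (F π)).symm]
  unfold sq
  rw [Finset.sum_comm, Finset.mul_sum]
  refine Finset.sum_le_sum fun s _ => ?_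
  rw [← integral_finsetSum _ (fun π _ => (hmem π s).integrable_sq), ← integral_const_mul]
  refine integral_mono_of_nonneg (Eventually.of_forall fun x => sq_nonneg _)
    ((integrable_finsetSum _ fun π _ => (hmem π s).integrable_sq).const_mul _)
    (Eventually.of_forall fun x => ?_)
  change (((n.factorial : ℝ))⁻¹ * ∑ π : Equiv.Perm (Fin n), asyT π (F π) s x) ^ 2 ≤
    ((n.factorial : ℝ))⁻¹ * ∑ π : Equiv.Perm (Fin n), asyT π (F π) s x ^ 2
  have h := sq_sum_le_card_mul_sum_sq (s := (Finset.univ : Finset (Equiv.Perm (Fin n))))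
    (f := fun π => asyT π (F π) s x)
  rw [hc] at h
  rw [mul_pow]
  calc ((n.factorial : ℝ))⁻¹ ^ 2 * (∑ π : Equiv.Perm (Fin n), asyT π (F π) s x) ^ 2
      ≤ ((n.factorial : ℝ))⁻¹ ^ 2 *
        (n.factorial * ∑ π : Equiv.Perm (Fin n), asyT π (F π) s x ^ 2) :=
        mul_le_mul_of_nonneg_left h (by positivity)
    _ = _ := by
        field_simp

theorem asyM_sub (F G : Equiv.Perm (Fin n) → Wf n) (s : Fin n → Fin 2) (x : Cf n) :
    asyM F s x - asyM G s x = asyM (fun π s x => F π s x - G π s x) s x := by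
  unfold asyM asyT
  rw [← mul_sub, ← Finset.sum_sub_distrib]
  congr 1
  refine Finset.sum_congr rfl fun π _ => ?_
  ring

/-- a function which is antisymmetric almost everywhere is its antisymmetrisation -/
theorem asy_ae (φ : Wf n) (hφ : ∀ (π : Equiv.Perm (Fin n)) (s : Fin n → Fin 2), ∀ᵐ x : Cf n,
    φ (fun i => s (π i)) (fun i => x (π i)) = ((Equiv.Perm.sign π : ℤ) : ℝ) * φ s x) (s) :
    Asy φ s =ᵐ[volume] φ s := by
  have hN : (0 : ℝ) < n.factorial := by exact_mod_cast n.factorial_pos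
  have h : ∀ᵐ x : Cf n, ∀ π : Equiv.Perm (Fin n),
      φ (fun i => s (π i)) (fun i => x (π i)) = ((Equiv.Perm.sign π : ℤ) : ℝ) * φ s x :=
    ae_all_iff.2 fun π => hφ π s
  filter_upwards [h] with x hx
  have h2 : ∀ π : Equiv.Perm (Fin n), asyT π φ s x = φ s x := by
    intro π
    change ((Equiv.Perm.sign π : ℤ) : ℝ) * φ (fun i => s (π i)) (fun i => x (π i)) = φ s x
    rw [hx π, ← mul_assoc, asy_ss, one_mul]
  change ((n.factorial : ℝ))⁻¹ * ∑ π : Equiv.Perm (Fin n), asyT π φ s x = φ s x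
  rw [Finset.sum_congr rfl fun π _ => h2 π, Finset.sum_const, Finset.card_univ,
    Fintype.card_perm, Fintype.card_fin, nsmul_eq_mul, ← mul_assoc, inv_mul_cancel₀ hN.ne',
    one_mul]

theorem asy_sq_congr (a b : Wf n) (h : ∀ s, a s =ᵐ[volume] b s) : sq a = sq b := by
  unfold sq
  refine Finset.sum_congr rfl fun s _ => integral_congr_ae ?_
  filter_upwards [h s] with x hx
  rw [hx]

theorem asy_avg_const (c : ℝ) :
    ((n.factorial : ℝ))⁻¹ * ∑ _π : Equiv.Perm (Fin n), c = c := by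
  have hN : (0 : ℝ) < n.factorial := by exact_mod_cast n.factorial_pos
  rw [Finset.sum_const, Finset.card_univ, Fintype.card_perm, Fintype.card_fin, nsmul_eq_mul,
    ← mul_assoc, inv_mul_cancel₀ hN.ne', one_mul]

theorem asy_sq_le (w : Wf n) (hw : ∀ s, MemLp (w s) 2) : sq (Asy w) ≤ sq w := by
  have h := asyM_sq (fun _ => w) fun _ => hw
  rw [asy_avg_const] at h
  exact h

theorem asy_sub (w φ : Wf n) (hw : ∀ s, MemLp (w s) 2) (hf : ∀ s, MemLp (φ s) 2)
    (hφ : ∀ (π : Equiv.Perm (Fin n)) (s : Fin n → Fin 2), ∀ᵐ x : Cf n,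
      φ (fun i => s (π i)) (fun i => x (π i)) = ((Equiv.Perm.sign π : ℤ) : ℝ) * φ s x) :
    sq (fun s x => Asy w s x - φ s x) ≤ sq (fun s x => w s x - φ s x) := by
  have h1 : sq (fun s x => Asy w s x - φ s x) = sq (Asy fun s x => w s x - φ s x) := by
    refine asy_sq_congr _ _ fun s => ?_
    filter_upwards [asy_ae φ hφ s] with x hx
    rw [← hx]
    exact asyM_sub (fun _ => w) (fun _ => φ) s x
  rw [h1]
  exact asy_sq_le _ fun s => (hw s).sub (hf s)

/-! ### smoothness and antisymmetry -/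

theorem asyx_cd (π : Equiv.Perm (Fin n)) : ContDiff ℝ (⊤ : ℕ∞) (asyx π) :=
  contDiff_pi.2 fun i => contDiff_apply ℝ R3 (π i)

theorem asyM_sm (F : Equiv.Perm (Fin n) → Wf n) (hF : ∀ π, Sm (F π)) : Sm (asyM F) := by
  intro s
  constructor
  · refine contDiff_const.mul (ContDiff.sum fun π _ => contDiff_const.mul ?_)
    exact (hF π (asys π s)).1.comp (asyx_cd π)
  · have h : ∀ π, HasCompactSupport (asyT π (F π) s) := fun π =>
      ((hF π (asys π s)).2.comp_homeomorph (asyH π)).mul_left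
    have h2 : HasCompactSupport fun x => ∑ π : Equiv.Perm (Fin n), asyT π (F π) s x := by
      classical
      have h3 : ∀ A : Finset (Equiv.Perm (Fin n)),
          HasCompactSupport fun x => ∑ π ∈ A, asyT π (F π) s x := by
        intro A
        induction A using Finset.induction_on with
        | empty =>
          simp only [Finset.sum_empty]
          exact HasCompactSupport.zero
        | insert a A ha ih =>
          simp only [Finset.sum_insert ha]
          exact (h a).add ih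
      exact h3 _
    exact h2.mul_left

theorem asy_sm (w : Wf n) (hw : Sm w) : Sm (Asy w) := asyM_sm _ fun _ => hw

theorem asy_anti (w : Wf n) : Anti (Asy w) := by
  intro σ s x
  change ((n.factorial : ℝ))⁻¹ * ∑ π : Equiv.Perm (Fin n),
      asyT π w (fun i => s (σ i)) (fun i => x (σ i)) =
    ((Equiv.Perm.sign σ : ℤ) : ℝ) *
      (((n.factorial : ℝ))⁻¹ * ∑ π : Equiv.Perm (Fin n), asyT π w s x)
  have h : ∀ π : Equiv.Perm (Fin n), asyT π w (fun i => s (σ i)) (fun i => x (σ i)) =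
      ((Equiv.Perm.sign σ : ℤ) : ℝ) * asyT (σ * π) w s x := by
    intro π
    change ((Equiv.Perm.sign π : ℤ) : ℝ) * w (asys (σ * π) s) (asyx (σ * π) x) =
      ((Equiv.Perm.sign σ : ℤ) : ℝ) *
        (((Equiv.Perm.sign (σ * π) : ℤ) : ℝ) * w (asys (σ * π) s) (asyx (σ * π) x))
    rw [Equiv.Perm.sign_mul, Units.val_mul, Int.cast_mul, ← mul_assoc, ← mul_assoc, asy_ss,
      one_mul]
  have h2 : ∑ π : Equiv.Perm (Fin n), asyT (σ * π) w s x =
      ∑ π : Equiv.Perm (Fin n), asyT π w s x :=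
    Equiv.sum_comp (Equiv.mulLeft σ) fun π => asyT π w s x
  rw [Finset.sum_congr rfl fun π _ => h π, ← Finset.mul_sum, h2]
  ring

/-! ### derivatives -/

theorem asy_dv1 (π : Equiv.Perm (Fin n)) (k : Fin n) (i : Fin 3) (v : Cf n → ℝ) (x : Cf n)
    (hv : DifferentiableAt ℝ v (asyx π x)) :
    HasFDerivAt (fun y => v (asyx π y)) ((fderiv ℝ v (asyx π x)).comp
      (ContinuousLinearMap.pi (fun j => ContinuousLinearMap.proj (R := ℝ) (φ := fun _ : Fin n => R3)
        (π j)))) x ∧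
    ((fderiv ℝ v (asyx π x)).comp
      (ContinuousLinearMap.pi (fun j => ContinuousLinearMap.proj (R := ℝ) (φ := fun _ : Fin n => R3)
        (π j)))) (Pi.single k (Pi.single i 1)) = dv (π⁻¹ k) i v (asyx π x) := by
  constructor
  · exact hv.hasFDerivAt.comp x (ContinuousLinearMap.pi (fun j =>
      ContinuousLinearMap.proj (R := ℝ) (φ := fun _ : Fin n => R3) (π j))).hasFDerivAt
  · rw [ContinuousLinearMap.comp_apply]
    unfold dv
    congr 1
    funext j
    change (Pi.single k (Pi.single i 1) : Cf n) (π j) = (Pi.single (π⁻¹ k) (Pi.single i 1) : Cf n) j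
    by_cases hj : j = π⁻¹ k
    · subst hj
      rw [Pi.single_eq_same]
      have e : π (π⁻¹ k) = k := Equiv.apply_symm_apply π k
      rw [e, Pi.single_eq_same]
    · rw [Pi.single_eq_of_ne hj, Pi.single_eq_of_ne]
      intro h
      apply hj
      rw [← h]
      exact (Equiv.symm_apply_apply π j).symm

theorem asyM_dv (F : Equiv.Perm (Fin n) → Wf n) (hF : ∀ π s, ContDiff ℝ (⊤ : ℕ∞) (F π s))
    (k : Fin n) (i : Fin 3) (s : Fin n → Fin 2) :
    dv k i (asyM F s) = asyM (fun π s => dv (π⁻¹ k) i (F π s)) s := by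
  funext x
  have h1 : HasFDerivAt (asyM F s) (((n.factorial : ℝ))⁻¹ • ∑ π : Equiv.Perm (Fin n),
      ((Equiv.Perm.sign π : ℤ) : ℝ) • ((fderiv ℝ (F π (asys π s)) (asyx π x)).comp
      (ContinuousLinearMap.pi (fun j => ContinuousLinearMap.proj (R := ℝ) (φ := fun _ : Fin n => R3)
        (π j))))) x := by
    refine HasFDerivAt.const_mul (HasFDerivAt.fun_sum fun π _ => HasFDerivAt.const_mul ?_ _) _
    exact (asy_dv1 π k i (F π (asys π s)) x
      ((hF π _).differentiable (by simp) _)).1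
  unfold dv at *
  rw [h1.fderiv]
  change (((n.factorial : ℝ))⁻¹ • ∑ π : Equiv.Perm (Fin n),
      ((Equiv.Perm.sign π : ℤ) : ℝ) • ((fderiv ℝ (F π (asys π s)) (asyx π x)).comp
      (ContinuousLinearMap.pi (fun j => ContinuousLinearMap.proj (R := ℝ) (φ := fun _ : Fin n => R3)
        (π j))))) (Pi.single k (Pi.single i 1)) =
    ((n.factorial : ℝ))⁻¹ * ∑ π : Equiv.Perm (Fin n), ((Equiv.Perm.sign π : ℤ) : ℝ) *
      dv (π⁻¹ k) i (F π (asys π s)) (asyx π x)
  rw [_root_.smul_apply, smul_eq_mul, _root_.sum_apply]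
  congr 1
  refine Finset.sum_congr rfl fun π _ => ?_
  rw [_root_.smul_apply, smul_eq_mul, (asy_dv1 π k i (F π (asys π s)) x
      ((hF π _).differentiable (by simp) _)).2]

theorem asy_mem (w : Wf n) (hw : Sm w) (s) : MemLp (w s) 2 :=
  (hw s).1.continuous.memLp_of_hasCompactSupport (hw s).2

theorem asy_dv_sm (w : Wf n) (hw : Sm w) (k : Fin n) (i : Fin 3) : Sm (fun s => dv k i (w s)) :=
  fun s => ⟨Helper2.PW.stb_dv k i (hw s).1, Helper2.PW.stb_cs_dv k i (hw s).2⟩

theorem asy_dd (w : Wf n) (hw : Sm w) : dd (Asy w) ≤ dd w := by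
  have h1 : ∀ k i l m, sq (fun s => dv k i (dv l m (Asy w s))) ≤ ((n.factorial : ℝ))⁻¹ *
      ∑ π : Equiv.Perm (Fin n), sq (fun s => dv (π⁻¹ k) i (dv (π⁻¹ l) m (w s))) := by
    intro k i l m
    have e : (fun s => dv k i (dv l m (Asy w s))) =
        asyM (fun π s => dv (π⁻¹ k) i (dv (π⁻¹ l) m (w s))) := by
      funext s
      have e1 : dv l m (Asy w s) = asyM (fun π s => dv (π⁻¹ l) m (w s)) s :=
        asyM_dv (fun _ => w) (fun _ s => (hw s).1) l m s
      rw [e1]
      exact asyM_dv (fun π s => dv (π⁻¹ l) m (w s))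
        (fun π s => Helper2.PW.stb_dv (π⁻¹ l) m (hw s).1) k i s
    rw [e]
    exact asyM_sq _ fun π s => asy_mem _ (asy_dv_sm _ (asy_dv_sm w hw _ _) _ _) s
  have h2 : dd (Asy w) ≤ ∑ k, ∑ i, ∑ l, ∑ m, ((n.factorial : ℝ))⁻¹ *
      ∑ π : Equiv.Perm (Fin n), sq (fun s => dv (π⁻¹ k) i (dv (π⁻¹ l) m (w s))) := by
    unfold dd
    exact Finset.sum_le_sum fun k _ => Finset.sum_le_sum fun i _ => Finset.sum_le_sum fun l _ =>
      Finset.sum_le_sum fun m _ => h1 k i l m
  have h3 : ∑ k, ∑ i, ∑ l, ∑ m, ((n.factorial : ℝ))⁻¹ *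
      ∑ π : Equiv.Perm (Fin n), sq (fun s => dv (π⁻¹ k) i (dv (π⁻¹ l) m (w s))) =
      ((n.factorial : ℝ))⁻¹ * ∑ π : Equiv.Perm (Fin n),
        ∑ k, ∑ i, ∑ l, ∑ m, sq (fun s => dv (π⁻¹ k) i (dv (π⁻¹ l) m (w s))) := by
    simp only [← Finset.mul_sum]
    congr 1
    exact (Finset.sum_congr rfl fun k _ => (Finset.sum_congr rfl fun i _ =>
      (Finset.sum_congr rfl fun l _ => Finset.sum_comm).trans Finset.sum_comm).trans
        Finset.sum_comm).trans Finset.sum_comm
  have h4 : ∀ π : Equiv.Perm (Fin n),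
      ∑ k, ∑ i, ∑ l, ∑ m, sq (fun s => dv (π⁻¹ k) i (dv (π⁻¹ l) m (w s))) = dd w := by
    intro π
    unfold dd
    have h5 : ∀ k i, ∑ l, ∑ m, sq (fun s => dv (π⁻¹ k) i (dv (π⁻¹ l) m (w s))) =
        ∑ l, ∑ m, sq (fun s => dv (π⁻¹ k) i (dv l m (w s))) := fun k i =>
      Equiv.sum_comp π⁻¹ fun l => ∑ m, sq (fun s => dv (π⁻¹ k) i (dv l m (w s)))
    rw [Finset.sum_congr rfl fun k _ => Finset.sum_congr rfl fun i _ => h5 k i]
    exact Equiv.sum_comp π⁻¹ fun k => ∑ i, ∑ l, ∑ m, sq (fun s => dv k i (dv l m (w s)))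
  rw [h3, Finset.sum_congr rfl fun π _ => h4 π, asy_avg_const] at h2
  exact h2

/-! ### the residual -/

theorem asy_nr_neg (y z : R3) : nr (y - z) = nr (z - y) := by
  unfold nr
  congr 1
  simp only [Pi.sub_apply]
  ring

theorem asy_rep_eq (x : Cf n) :
    rep x = 1 / 2 * ∑ k, ∑ l, if k = l then 0 else 1 / nr (x k - x l) := by
  have h1 : ∑ k, ∑ l, (if k = l then (0 : ℝ) else 1 / nr (x k - x l)) =
      (∑ k, ∑ l, if k < l then 1 / nr (x k - x l) else 0) +
      ∑ k, ∑ l, if l < k then 1 / nr (x k - x l) else 0 := by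
    rw [← Finset.sum_add_distrib]
    refine Finset.sum_congr rfl fun k _ => ?_
    rw [← Finset.sum_add_distrib]
    refine Finset.sum_congr rfl fun l _ => ?_
    rcases lt_trichotomy k l with h | h | h
    · rw [if_neg h.ne, if_pos h, if_neg h.le.not_gt, add_zero]
    · rw [if_pos h, if_neg h.not_lt, if_neg (fun h' => h'.ne h.symm), add_zero]
    · rw [if_neg h.ne', if_neg h.le.not_gt, if_pos h, zero_add]
  have h2 : ∑ k, ∑ l, (if l < k then 1 / nr (x k - x l) else 0) =
      ∑ k, ∑ l, if k < l then 1 / nr (x k - x l) else 0 := by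
    rw [Finset.sum_comm]
    refine Finset.sum_congr rfl fun k _ => Finset.sum_congr rfl fun l _ => ?_
    rw [asy_nr_neg]
  rw [h1, h2]
  unfold rep
  ring

theorem asy_rep (π : Equiv.Perm (Fin n)) (x : Cf n) : rep (asyx π x) = rep x := by
  rw [asy_rep_eq, asy_rep_eq]
  congr 1
  have h : ∀ k, ∑ l, (if k = l then (0 : ℝ) else 1 / nr (asyx π x k - asyx π x l)) =
      ∑ l, if π k = l then (0 : ℝ) else 1 / nr (x (π k) - x l) := by
    intro k
    rw [← Equiv.sum_comp π fun l => if π k = l then (0 : ℝ) else 1 / nr (x (π k) - x l)]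
    refine Finset.sum_congr rfl fun l _ => ?_
    by_cases hkl : k = l
    · rw [if_pos hkl, if_pos (congrArg π hkl)]
    · rw [if_neg hkl, if_neg fun h => hkl (π.injective h)]
      rfl
  rw [Finset.sum_congr rfl fun k _ => h k]
  exact Equiv.sum_comp π fun k => ∑ l, if k = l then (0 : ℝ) else 1 / nr (x k - x l)

theorem asy_att (π : Equiv.Perm (Fin n)) (x : Cf n) : att (asyx π x) = att x := by
  unfold att
  exact Equiv.sum_comp π fun k => 1 / nr (x k)

theorem asy_hm (Z E : ℝ) (w : Wf n) (hw : Sm w) (s : Fin n → Fin 2) (x : Cf n) :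
    hm Z (Asy w s) x - E * Asy w s x = Asy (fun s x => hm Z (w s) x - E * w s x) s x := by
  have h1 : ∀ k i, dv k i (dv k i (Asy w s)) x =
      asyM (fun π s => dv (π⁻¹ k) i (dv (π⁻¹ k) i (w s))) s x := by
    intro k i
    have e1 : dv k i (Asy w s) = asyM (fun π s => dv (π⁻¹ k) i (w s)) s :=
      asyM_dv (fun _ => w) (fun _ s => (hw s).1) k i s
    rw [e1]
    exact congrFun (asyM_dv (fun π s => dv (π⁻¹ k) i (w s))
      (fun π s => Helper2.PW.stb_dv (π⁻¹ k) i (hw s).1) k i s) x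
  have h2 : ∑ k, ∑ i, dv k i (dv k i (Asy w s)) x = ((n.factorial : ℝ))⁻¹ *
      ∑ π : Equiv.Perm (Fin n), ((Equiv.Perm.sign π : ℤ) : ℝ) *
        ∑ k, ∑ i, dv k i (dv k i (w (asys π s))) (asyx π x) := by
    rw [Finset.sum_congr rfl fun k _ => Finset.sum_congr rfl fun i _ => h1 k i]
    unfold asyM asyT
    simp only [← Finset.mul_sum]
    congr 1
    have e2 : ∑ k, ∑ i, ∑ π : Equiv.Perm (Fin n), ((Equiv.Perm.sign π : ℤ) : ℝ) *
          dv (π⁻¹ k) i (dv (π⁻¹ k) i (w (asys π s))) (asyx π x) =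
        ∑ π : Equiv.Perm (Fin n), ∑ k, ∑ i, ((Equiv.Perm.sign π : ℤ) : ℝ) *
          dv (π⁻¹ k) i (dv (π⁻¹ k) i (w (asys π s))) (asyx π x) :=
      (Finset.sum_congr rfl fun k _ => Finset.sum_comm).trans Finset.sum_comm
    rw [e2]
    refine Finset.sum_congr rfl fun π _ => ?_
    simp only [← Finset.mul_sum]
    congr 1
    exact Equiv.sum_comp π⁻¹ fun k => ∑ i, dv k i (dv k i (w (asys π s))) (asyx π x)
  unfold hm
  rw [h2]
  unfold Asy asyM asyT
  simp only [asy_rep, asy_att]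
  have e3 : ∀ π : Equiv.Perm (Fin n), ((Equiv.Perm.sign π : ℤ) : ℝ) *
      (-(∑ k, ∑ i, dv k i (dv k i (w (asys π s))) (asyx π x)) +
        (rep x - Z * att x) * w (asys π s) (asyx π x) - E * w (asys π s) (asyx π x)) =
      -(((Equiv.Perm.sign π : ℤ) : ℝ) *
        ∑ k, ∑ i, dv k i (dv k i (w (asys π s))) (asyx π x)) +
      (rep x - Z * att x - E) * (((Equiv.Perm.sign π : ℤ) : ℝ) * w (asys π s) (asyx π x)) := by
    intro π
    ring
  rw [Finset.sum_congr rfl fun π _ => e3 π, Finset.sum_add_distrib, Finset.sum_neg_distrib,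
    ← Finset.mul_sum]
  ring

theorem asy_meas_nr {α : Type*} [MeasurableSpace α] {f : α → R3} (hf : Measurable f) :
    Measurable fun x => nr (f x) := by
  unfold nr
  have h : ∀ i, Measurable fun x => f x i := fun i => (measurable_pi_apply i).comp hf
  exact ((((h 0).pow_const 2).add ((h 1).pow_const 2)).add ((h 2).pow_const 2)).sqrt

theorem asy_meas_att : Measurable (att : Cf n → ℝ) := by
  unfold att
  exact Finset.measurable_sum _ fun k _ =>
    (asy_meas_nr (measurable_pi_apply k)).const_div 1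

theorem asy_meas_rep : Measurable (rep : Cf n → ℝ) := by
  unfold rep
  refine Finset.measurable_sum _ fun k _ => Finset.measurable_sum _ fun l _ => ?_
  by_cases h : k < l
  · simp only [if_pos h]
    exact (asy_meas_nr ((measurable_pi_apply k).sub (measurable_pi_apply l))).const_div 1
  · simp only [if_neg h]
    exact measurable_const

/-- the residual is square integrable -/
theorem asy_res_mem (hI : ST_INT) (Z E : ℝ) (w : Wf n) (hw : Sm w) (s) :
    MemLp (fun x => hm Z (w s) x - E * w s x) 2 := by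
  have hv := hw s
  obtain ⟨-, -, i3, i4⟩ := hI n (w s) (w s) hv.1 hv.2 hv.1 hv.2
  have m3 : MemLp (fun x => att x * w s x) 2 :=
    (memLp_two_iff_integrable_sq
      (asy_meas_att.mul hv.1.continuous.measurable).aestronglyMeasurable).2 i3
  have m4 : MemLp (fun x => rep x * w s x) 2 :=
    (memLp_two_iff_integrable_sq
      (asy_meas_rep.mul hv.1.continuous.measurable).aestronglyMeasurable).2 i4
  have m5 : MemLp (w s) 2 := asy_mem w hw s
  have m6 : MemLp (fun x => ∑ k, ∑ i, dv k i (dv k i (w s)) x) 2 := by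
    refine memLp_finsetSum _ fun k _ => memLp_finsetSum _ fun i _ => ?_
    exact asy_mem _ (asy_dv_sm _ (asy_dv_sm w hw k i) k i) s
  have m7 := ((m6.neg.add (m4.sub (m3.const_mul Z))).sub (m5.const_mul E))
  refine m7.congr_norm ?_ ?_
  · unfold hm
    have a1 := m6.aestronglyMeasurable
    have a2 := ((asy_meas_rep (n := n)).sub ((asy_meas_att (n := n)).const_mul Z)).mul
      hv.1.continuous.measurable
    exact (a1.neg.add a2.aestronglyMeasurable).sub (m5.aestronglyMeasurable.const_mul E)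
  · refine Eventually.of_forall fun x => ?_
    congr 1
    unfold hm
    simp only [Pi.add_apply, Pi.sub_apply, Pi.neg_apply]
    ring

theorem asy_res (hI : ST_INT) (Z E : ℝ) (w : Wf n) (hw : Sm w) : res Z E (Asy w) ≤ res Z E w := by
  unfold res
  have e : (fun (s : Fin n → Fin 2) (x : Cf n) => hm Z (Asy w s) x - E * Asy w s x) =
      Asy (fun s x => hm Z (w s) x - E * w s x) := by
    funext s x
    exact asy_hm Z E w hw s x
  rw [e]
  exact asy_sq_le _ fun s => asy_res_mem hI Z E w hw s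

/-! ### the gradient -/

theorem asy_cs (f g : Cf n → ℝ) (hf : MemLp f 2) (hg : MemLp g 2) :
    (∫ x, f x * g x) ^ 2 ≤ (∫ x, f x ^ 2) * ∫ x, g x ^ 2 := by
  have i1 := hf.integrable_sq
  have i2 := hg.integrable_sq
  have i3 : Integrable fun x => f x * g x := hf.integrable_mul hg
  have h : ∀ t : ℝ, 0 ≤ (∫ x, g x ^ 2) * (t * t) + (2 * ∫ x, f x * g x) * t + ∫ x, f x ^ 2 := by
    intro t
    have h1 : (∫ x, g x ^ 2) * (t * t) + (2 * ∫ x, f x * g x) * t + ∫ x, f x ^ 2 =
        ∫ x, (f x + t * g x) ^ 2 := by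
      have h2 : (fun x => (f x + t * g x) ^ 2) =
          fun x => t * t * g x ^ 2 + 2 * t * (f x * g x) + f x ^ 2 := by
        funext x
        ring
      have i4 : Integrable fun x => t * t * g x ^ 2 + 2 * t * (f x * g x) :=
        (i2.const_mul _).add (i3.const_mul _)
      rw [h2, integral_add i4 i1,
        integral_add (i2.const_mul _) (i3.const_mul _), integral_const_mul, integral_const_mul]
      ring
    rw [h1]
    exact integral_nonneg fun x => sq_nonneg _
  have h3 := discrim_le_zero h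
  unfold discrim at h3
  nlinarith

theorem asy_lim (v : ℕ → Cf n → ℝ) (f θ : Cf n → ℝ) (hv : ∀ j, MemLp (v j) 2) (hf : MemLp f 2)
    (hθ : MemLp θ 2) (h : Tendsto (fun j => ∫ x, (v j x - f x) ^ 2) atTop (nhds 0)) :
    Tendsto (fun j => ∫ x, v j x * θ x) atTop (nhds (∫ x, f x * θ x)) := by
  rw [tendsto_iff_norm_sub_tendsto_zero]
  have h1 : Tendsto (fun j => Real.sqrt ((∫ x, (v j x - f x) ^ 2) * ∫ x, θ x ^ 2)) atTop
      (nhds 0) := by
    have := (Real.continuous_sqrt.tendsto _).comp (h.mul_const (∫ x, θ x ^ 2))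
    rw [zero_mul, Real.sqrt_zero] at this
    exact this
  refine squeeze_zero (fun j => norm_nonneg _) (fun j => ?_) h1
  have i1 : Integrable fun x => v j x * θ x := (hv j).integrable_mul hθ
  have i2 : Integrable fun x => f x * θ x := hf.integrable_mul hθ
  have e : (∫ x, v j x * θ x) - ∫ x, f x * θ x = ∫ x, (v j x - f x) * θ x := by
    rw [← integral_sub i1 i2]
    congr 1
    funext x
    ring
  rw [e, Real.norm_eq_abs]
  exact Real.abs_le_sqrt (asy_cs _ θ ((hv j).sub hf) hθ)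

theorem asy_wk (k : Fin n) (i : Fin 3) (v : ℕ → Cf n → ℝ) (f g θ : Cf n → ℝ)
    (hv : ∀ j, ContDiff ℝ (⊤ : ℕ∞) (v j)) (hc : ∀ j, HasCompactSupport (v j))
    (hf : MemLp f 2) (hg : MemLp g 2)
    (h1 : Tendsto (fun j => ∫ x, (v j x - f x) ^ 2) atTop (nhds 0))
    (h2 : Tendsto (fun j => ∫ x, (dv k i (v j) x - g x) ^ 2) atTop (nhds 0))
    (hθ : ContDiff ℝ (⊤ : ℕ∞) θ) (hθc : HasCompactSupport θ) :
    ∫ x, g x * θ x = -∫ x, f x * dv k i θ x := by
  have m1 : MemLp θ 2 := hθ.continuous.memLp_of_hasCompactSupport hθc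
  have m2 : MemLp (dv k i θ) 2 := (Helper2.PW.stb_dv k i hθ).continuous.memLp_of_hasCompactSupport
    (Helper2.PW.stb_cs_dv k i hθc)
  have a1 := asy_lim v f (dv k i θ) (fun j => (hv j).continuous.memLp_of_hasCompactSupport (hc j))
    hf m2 h1
  have a2 := asy_lim (fun j => dv k i (v j)) g θ
    (fun j => (Helper2.PW.stb_dv k i (hv j)).continuous.memLp_of_hasCompactSupport
      (Helper2.PW.stb_cs_dv k i (hc j))) hg m1 h2
  have a3 : (fun j => ∫ x, dv k i (v j) x * θ x) = fun j => -∫ x, v j x * dv k i θ x := by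
    funext j
    exact Helper2.PW.st_IBP n k i (v j) θ (hv j) (hc j) hθ
  rw [a3] at a2
  exact tendsto_nhds_unique a2 a1.neg

theorem asy_term (a : ℕ → Wf n) (h : Tendsto (fun j => sq (a j)) atTop (nhds 0)) (s) :
    Tendsto (fun j => ∫ x, a j s x ^ 2) atTop (nhds 0) := by
  refine squeeze_zero (fun j => integral_nonneg fun x => sq_nonneg _) (fun j => ?_) h
  exact Finset.single_le_sum (f := fun s => ∫ x, a j s x ^ 2)
    (fun s _ => integral_nonneg fun x => sq_nonneg _) (Finset.mem_univ s)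

theorem asy_grad (φ : Wf n) (G : Fin n → Fin 3 → Wf n) (hf : ∀ s, MemLp (φ s) 2)
    (hG : ∀ k i s, MemLp (G k i s) 2)
    (hφ : ∀ (π : Equiv.Perm (Fin n)) (s : Fin n → Fin 2), ∀ᵐ x : Cf n,
      φ (fun i => s (π i)) (fun i => x (π i)) = ((Equiv.Perm.sign π : ℤ) : ℝ) * φ s x)
    (w : ℕ → Wf n) (hw : ∀ j, Sm (w j))
    (h1 : Tendsto (fun j => sq (fun s x => w j s x - φ s x)) atTop (nhds 0))
    (h2 : ∀ k i, Tendsto (fun j => sq (fun s x => dv k i (w j s) x - G k i s x)) atTop (nhds 0)) :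
    Tendsto (fun j => sq (fun s x => Asy (w j) s x - φ s x)) atTop (nhds 0) ∧
    ∀ k i, Tendsto (fun j => sq (fun s x => dv k i (Asy (w j) s) x - G k i s x)) atTop
      (nhds 0) := by
  have b1 : Tendsto (fun j => sq (fun s x => Asy (w j) s x - φ s x)) atTop (nhds 0) :=
    squeeze_zero (fun j => Finset.sum_nonneg fun s _ => integral_nonneg fun x => sq_nonneg _)
      (fun j => asy_sub (w j) φ (asy_mem _ (hw j)) hf hφ) h1
  refine ⟨b1, fun k i => ?_⟩
  have d1 : ∀ j s, dv k i (Asy (w j) s) = asyM (fun π s => dv (π⁻¹ k) i (w j s)) s :=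
    fun j s => asyM_dv (fun _ => w j) (fun _ s => (hw j s).1) k i s
  have mH : ∀ s, MemLp (asyM (fun π => G (π⁻¹ k) i) s) 2 := fun s =>
    (memLp_finsetSum _ fun π _ => asyT_mem π (G (π⁻¹ k) i) (hG _ _) s).const_mul _
  have b2 : Tendsto (fun j => sq (fun s x => dv k i (Asy (w j) s) x -
      asyM (fun π => G (π⁻¹ k) i) s x)) atTop (nhds 0) := by
    have c1 : Tendsto (fun j => ((n.factorial : ℝ))⁻¹ * ∑ π : Equiv.Perm (Fin n),
        sq (fun s x => dv (π⁻¹ k) i (w j s) x - G (π⁻¹ k) i s x)) atTop (nhds 0) := by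
      have := (tendsto_finsetSum (Finset.univ : Finset (Equiv.Perm (Fin n)))
        fun π _ => h2 (π⁻¹ k) i).const_mul ((n.factorial : ℝ))⁻¹
      rwa [Finset.sum_const_zero, mul_zero] at this
    refine squeeze_zero (fun j => Finset.sum_nonneg fun s _ => integral_nonneg fun x => sq_nonneg _)
      (fun j => ?_) c1
    have e : (fun s x => dv k i (Asy (w j) s) x - asyM (fun π => G (π⁻¹ k) i) s x) =
        asyM (fun π s x => dv (π⁻¹ k) i (w j s) x - G (π⁻¹ k) i s x) := by
      funext s x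
      rw [d1 j s]
      exact asyM_sub (fun π s => dv (π⁻¹ k) i (w j s)) (fun π => G (π⁻¹ k) i) s x
    rw [e]
    exact asyM_sq _ fun π s => (asy_mem _ (asy_dv_sm (w j) (hw j) (π⁻¹ k) i) s).sub (hG _ _ s)
  have b3 : ∀ s, asyM (fun π => G (π⁻¹ k) i) s =ᵐ[volume] G k i s := by
    intro s
    refine ae_eq_of_integral_contDiff_smul_eq ((mH s).locallyIntegrable (by norm_num))
      ((hG k i s).locallyIntegrable (by norm_num)) fun θ hθ hθc => ?_
    have c1 := asy_wk k i (fun j => Asy (w j) s) (φ s) _ θ (fun j => (asy_sm _ (hw j) s).1)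
      (fun j => (asy_sm _ (hw j) s).2) (hf s) (mH s) (asy_term _ b1 s) (asy_term _ b2 s) hθ hθc
    have c2 := asy_wk k i (fun j => w j s) (φ s) _ θ (fun j => (hw j s).1)
      (fun j => (hw j s).2) (hf s) (hG k i s) (asy_term _ h1 s) (asy_term _ (h2 k i) s) hθ hθc
    simp only [smul_eq_mul]
    have c3 : ∀ g : Cf n → ℝ, ∫ x, θ x * g x = ∫ x, g x * θ x := fun g => by
      congr 1
      funext x
      ring
    rw [c3, c3, c1, c2]
  have b4 : (fun j => sq (fun s x => dv k i (Asy (w j) s) x - G k i s x)) =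
      fun j => sq (fun s x => dv k i (Asy (w j) s) x - asyM (fun π => G (π⁻¹ k) i) s x) := by
    funext j
    refine asy_sq_congr _ _ fun s => ?_
    filter_upwards [b3 s] with x hx
    rw [hx]
  rw [b4]
  exact b2

/-- antisymmetrised approximations -/
theorem asy_appr (hI : ST_INT) (E : ℝ) (φ : Wf n) (G : Fin n → Fin 3 → Wf n)
    (hf : ∀ s, MemLp (φ s) 2) (hG : ∀ k i s, MemLp (G k i s) 2)
    (hφ : ∀ (π : Equiv.Perm (Fin n)) (s : Fin n → Fin 2), ∀ᵐ x : Cf n,
      φ (fun i => s (π i)) (fun i => x (π i)) = ((Equiv.Perm.sign π : ℤ) : ℝ) * φ s x)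
    (w : ℕ → Wf n) (hw : ∀ j, Sm (w j))
    (h1 : Tendsto (fun j => sq (fun s x => w j s x - φ s x)) atTop (nhds 0))
    (h2 : ∀ k i, Tendsto (fun j => sq (fun s x => dv k i (w j s) x - G k i s x)) atTop (nhds 0))
    (h3 : ∃ M : ℝ, ∀ j, dd (w j) ≤ M)
    (h4 : Tendsto (fun j => res n E (w j)) atTop (nhds 0)) :
    Appr E φ G fun j => Asy (w j) := by
  obtain ⟨M, hM⟩ := h3
  obtain ⟨b1, b2⟩ := asy_grad φ G hf hG hφ w hw h1 h2
  refine ⟨fun j => ⟨asy_sm _ (hw j), asy_anti _⟩, b1, b2, ⟨M, fun j =>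
    (asy_dd _ (hw j)).trans (hM j)⟩, ?_⟩
  exact squeeze_zero (fun j => Finset.sum_nonneg fun s _ => integral_nonneg fun x => sq_nonneg _)
    (fun j => asy_res hI n E (w j) (hw j)) h4

end Pool.Agent.Helper95.PW
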